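import Mathlib

/-!
Definitions for the budget-constrained random graph process.
-/

open Filter Topology

namespace Pool.Agent.MP_8d021f_pr

/-- The edges of the complete graph on `Fin n`. -/
abbrev Edge (n : ℕ) : Type := (⊤ : SimpleGraph (Fin n)).edgeSet

/-- An ordering `e_1, …, e_N` (`N = n choose 2`) of all edges of `K_n`; `σ i` is the edge `e_(i+1)`. -/
abbrev EdgeOrder (n : ℕ) : Type := Fin (n.choose 2) ≃ Edge n

/-- Probability of an event under the uniformly random ordering. -/
noncomputable def prob {n : ℕ} (A : Set (EdgeOrder n)) : ℝ :=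
  (A.ncard : ℝ) / (Nat.card (EdgeOrder n) : ℝ)

/-- The events `A n` hold asymptotically almost surely. -/
def AAS (A : ∀ n : ℕ, Set (EdgeOrder n)) : Prop :=
  Tendsto (fun n => prob (A n)) atTop (𝓝 1)

/-- The graph `G_t` formed by the first `t` edges. -/
def graphAt {n : ℕ} (σ : EdgeOrder n) (t : ℕ) : SimpleGraph (Fin n) :=
  SimpleGraph.fromEdgeSet {e | ∃ i : Fin (n.choose 2), (i : ℕ) < t ∧ e = (σ i : Sym2 (Fin n))}

/-- The list `[e_1, …, e_i]` of the first `i` edges shown. -/
def shown {n : ℕ} (σ : EdgeOrder n) (i : ℕ) : List (Edge n) := (List.ofFn σ).take i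

/-- A strategy is a rule `S` that, from the list `[e_1, …, e_i]` alone, decides whether to buy `e_i`.
`boughtIdx S σ t` is the set of (zero-based) positions among the first `t` at which Builder buys. -/
def boughtIdx {n : ℕ} (S : List (Edge n) → Prop) (σ : EdgeOrder n) (t : ℕ) :
    Set (Fin (n.choose 2)) :=
  {i | (i : ℕ) < t ∧ S (shown σ (i + 1))}

/-- The graph of the edges bought among the first `t`. -/
def boughtGraph {n : ℕ} (S : List (Edge n) → Prop) (σ : EdgeOrder n) (t : ℕ) :
    SimpleGraph (Fin n) :=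
  SimpleGraph.fromEdgeSet {e | ∃ i ∈ boughtIdx S σ t, e = (σ i : Sym2 (Fin n))}

end Pool.Agent.MP_8d021f_pr
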